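import Mathlib
import Pool.Agent.Q238.EX.Cases

/-!
# MP_36fb0d_co: there is no nonprincipal `E₂`-idempotent ultrafilter

Let `p` be an ultrafilter on the positive integers with `E₂(p, p) = p`, where
`A ∈ E₂(p, q)` iff `{n | {m | m ^ n ∈ A} ∈ q} ∈ p`.  Then `p` is the principal ultrafilter at `1`.
-/

namespace Pool.Agent.Results.MP_36fb0d_co.NoIdempotent

open Filter

/-- The second exponentiation `E₂(p, q)` of ultrafilters on the positive integers: the sets `A`
with `{n | {m | m ^ n ∈ A} ∈ q} ∈ p`. -/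
def E₂ (p q : Ultrafilter ℕ+) : Ultrafilter ℕ+ :=
  p.bind fun n => q.map fun m => m ^ (n : ℕ)

lemma mem_E₂ (p q : Ultrafilter ℕ+) (A : Set ℕ+) :
    A ∈ E₂ p q ↔ {n : ℕ+ | {m : ℕ+ | m ^ (n : ℕ) ∈ A} ∈ q} ∈ p := Iff.rfl

/-- Membership in `E₂(p, q)` is as in the problem, and the only ultrafilter `p` on the positive
integers with `E₂(p, p) = p` is the principal ultrafilter at `1`. -/
theorem result :
    (∀ (p q : Ultrafilter ℕ+) (A : Set ℕ+),
      A ∈ E₂ p q ↔ {n : ℕ+ | {m : ℕ+ | m ^ (n : ℕ) ∈ A} ∈ q} ∈ p) ∧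
    ∀ p : Ultrafilter ℕ+, E₂ p p = p ↔ p = pure 1 := by
  refine ⟨mem_E₂, fun p => ⟨fun h => ?_, ?_⟩⟩
  · have hp : Pool.Agent.Q238.EX.Idem p := by
      intro A
      have h1 := mem_E₂ p p A
      rw [h] at h1
      exact h1
    rcases p.em (fun n => n = (1 : ℕ+)) with h1 | h1
    · have h2 : ({1} : Set ℕ+) ∈ p := h1
      apply Ultrafilter.coe_le_coe.1
      rw [Ultrafilter.coe_pure, le_pure_iff]
      exact h2
    · exfalso
      have h1' : ∀ᶠ n : ℕ+ in (p : Filter ℕ+), n ≠ 1 := h1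
      rcases p.em (fun n => 2 ∣ (n : ℕ)) with h2 | h2
      · exact Pool.Agent.Q238.EX.case_even p hp h2
      · exact Pool.Agent.Q238.EX.case_odd p hp h2 h1'
  · rintro rfl
    apply Ultrafilter.coe_injective
    ext A
    have := mem_E₂ (pure 1) (pure 1) A
    simpa using this

end Pool.Agent.Results.MP_36fb0d_co.NoIdempotent
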